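import Pool.Graph.R_pool_sql_team_39128cda.H.MP_dbf4ef_co.A

/-!
# The total curvature `η` and the links of the complete subgraphs with an even number of vertices

For every finite graph, `η(G)` is twice the sum of `2 - χ(lk c)` over the complete subgraphs `c`
with an even number of vertices, and all curvatures vanish as soon as all these terms vanish.  So
`η(G) = 0` is equivalent to the vanishing of all curvatures whenever `χ(lk c) ≤ 2` for all these
`c`, or `χ(lk c) ≥ 2` for all these `c`.
-/

set_option autoImplicit false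

namespace Pool.Agent.Results.MP_dbf4ef_co.EvenCliques

open Finset Classical

/-- the unit sphere of `x` in the subgraph induced on `s` -/
noncomputable def sph {V : Type} (G : SimpleGraph V) (s : Finset V) (x : V) : Finset V :=
  s.filter (G.Adj x)

/-- the nonempty complete subgraphs of the subgraph induced on `s` -/
noncomputable def cl {V : Type} (G : SimpleGraph V) (s : Finset V) : Finset (Finset V) :=
  s.powerset.filter (fun c : Finset V => c.Nonempty ∧ G.IsClique c)

/-- Euler characteristic of the subgraph induced on `s` -/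
noncomputable def chi {V : Type} (G : SimpleGraph V) (s : Finset V) : ℤ :=
  ∑ c ∈ cl G s, (-1) ^ (c.card + 1)

/-- collapsible (induced) subgraphs -/
inductive Coll {V : Type} (G : SimpleGraph V) : Finset V → Prop
  | single (x : V) : Coll G {x}
  | step (s : Finset V) (x : V) : x ∈ s → Coll G (s.erase x) → Coll G (sph G s x) → Coll G s

/-- `Sphere G n s`: the subgraph induced on `s` is an `(n - 1)`-sphere -/
def Sphere {V : Type} (G : SimpleGraph V) : ℕ → Finset V → Prop
  | 0, s => s = ∅
  | n + 1, s => (∀ x ∈ s, Sphere G n (sph G s x)) ∧ ∃ x ∈ s, Coll G (s.erase x)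

/-- `DGraph G n s`: the subgraph induced on `s` is an `(n - 1)`-graph -/
def DGraph {V : Type} (G : SimpleGraph V) : ℕ → Finset V → Prop
  | 0, s => s = ∅
  | n + 1, s => ∀ x ∈ s, Sphere G n (sph G s x)

/-- `Variety G n s`: the subgraph induced on `s` is an `(n - 1)`-variety -/
def Variety {V : Type} (G : SimpleGraph V) : ℕ → Finset V → Prop
  | 0, s => s = ∅
  | n + 1, s => ∃ Z ⊆ s, (∀ x ∈ Z, ∀ y ∈ Z, ¬ G.Adj x y) ∧
      (∀ x ∈ s, x ∉ Z → DGraph G n (sph G s x)) ∧ ∀ x ∈ Z, Variety G n (sph G s x)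

/-- adjacency in Barycentric refinements: strict containment -/
def bary (V : Type) : SimpleGraph (Finset V) where
  Adj a b := a ⊂ b ∨ b ⊂ a
  symm := ⟨fun _ _ h => h.symm⟩
  loopless := ⟨fun _ h => h.elim (lt_irrefl _) (lt_irrefl _)⟩

/-- the curvature `χ(S(c))` of the vertex `c` of the Barycentric refinement of `G` -/
noncomputable def curv {V : Type} [Fintype V] (G : SimpleGraph V) (c : Finset V) : ℤ :=
  chi (bary V) (sph (bary V) (cl G univ) c)

/-- the link of `c`: the common neighbours of the vertices of `c` -/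
noncomputable def lk {V : Type} [Fintype V] (G : SimpleGraph V) (c : Finset V) : Finset V :=
  univ.filter (fun y => ∀ x ∈ c, G.Adj x y)

/-- the total curvature `η(G)` -/
noncomputable def eta {V : Type} [Fintype V] (G : SimpleGraph V) : ℤ :=
  ∑ c ∈ cl G univ, curv G c

/-- `G` is a `d`-graph outside a set of pairwise nonadjacent vertices: the unit spheres of all the
other vertices are `(d-1)`-graphs (nothing is assumed about the unit spheres of the vertices in the
set). -/
def IsolatedSingularities {V : Type} [Fintype V] (G : SimpleGraph V) (d : ℕ) : Prop :=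
  ∃ Z : Finset V, (∀ x ∈ Z, ∀ y ∈ Z, ¬ G.Adj x y) ∧ ∀ x, x ∉ Z → DGraph G d (sph G univ x)

/-- the number of complete subgraphs with `k + 1` vertices -/
noncomputable def v {V : Type} [Fintype V] (G : SimpleGraph V) (k : ℕ) : ℕ :=
  ((cl G univ).filter (fun c => c.card = k + 1)).card

open Pool.Agent.H.MP_dbf4ef_co

theorem chi_eq {V : Type} (G : SimpleGraph V) (s : Finset V) : chi G s = 1 - red G s := by
  rw [red, ← add_sum_erase _ _ (empty_mem_powerset s), chi, cl, sum_filter,
    ← add_sum_erase _ _ (empty_mem_powerset s), sub_add_eq_sub_sub, sub_eq_add_neg,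
    ← sum_neg_distrib]
  refine congrArg₂ _ (by simp) (sum_congr rfl (fun c hc => ?_))
  simp only [nonempty_iff_ne_empty.2 (mem_erase.1 hc).1, true_and]
  split_ifs <;> ring

theorem coll {V : Type} {G : SimpleGraph V} {s : Finset V} (h : Coll G s) : red G s = 0 := by
  induction h with
  | single x => simp [red_erase G {x} x (mem_singleton_self x), filter_singleton]
  | step s x hx _ _ h1 h2 => rw [red_erase G s x hx, h1, ← sph, h2, sub_zero]

theorem sphere {V : Type} {G : SimpleGraph V} (n : ℕ) :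
    ∀ s, Sphere G n s → red G s = (-1) ^ n := by
  induction n with
  | zero => rintro s rfl; simp [red_empty]
  | succ n ih =>
    rintro s ⟨h, x, hx, hc⟩
    rw [red_erase G s x hx, coll hc, ← sph, ih _ (h x hx)]
    ring

theorem link {V : Type} {G : SimpleGraph V} (n : ℕ) (s : Finset V) (h : Sphere G n s)
    (c : Finset V) (hs : c ⊆ s) (hc : G.IsClique c) :
    ∃ m, n = m + c.card ∧ Sphere G m (s.filter (fun y => ∀ x ∈ c, G.Adj x y)) := by
  induction c using Finset.induction_on with
  | empty => exact ⟨n, rfl, by simpa using h⟩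
  | insert a c ha ih =>
    obtain ⟨m, h1, h2⟩ := ih ((subset_insert _ _).trans hs) (hc.subset (by simp))
    have hm : a ∈ s.filter (fun y => ∀ x ∈ c, G.Adj x y) := mem_filter.2
      ⟨hs (by simp), fun x hx => hc (by simp [hx]) (by simp) (fun e => ha (e ▸ hx))⟩
    rcases m with _ | m
    · rw [show _ = ∅ from h2] at hm
      simp at hm
    · refine ⟨m, by rw [card_insert_of_notMem ha]; omega, ?_⟩
      have := h2.1 a hm
      rwa [sph, filter_filter, filter_congr (q := fun y => ∀ x ∈ insert a c, G.Adj x y)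
        (fun y _ => by simp [and_comm])] at this

section

variable {V : Type} [Fintype V] (G : SimpleGraph V)

/-- all complete subgraphs, the empty one included -/
noncomputable def KK : Finset (Finset V) :=
  (univ : Finset V).powerset.filter (fun c : Finset V => G.IsClique c)

/-- sum over the complete subgraphs containing `c` -/
noncomputable def UU (c : Finset V) : ℤ := ∑ τ ∈ (KK G).filter (c ⊆ ·), (-1 : ℤ) ^ τ.card

theorem mK (c : Finset V) : c ∈ KK G ↔ G.IsClique c := by simp [KK]

theorem mC (c : Finset V) : c ∈ cl G univ ↔ c.Nonempty ∧ c ∈ KK G := by simp [cl, mK]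

theorem curv_eq (x : Finset V) (hx : x ∈ cl G univ) : curv G x = 1 + UU G x := by
  rw [curv, chi_eq, sph, red_sphere (bary V) (fun _ _ => Iff.rfl) _ (by simp [mC]) (fun a ha b h1 h2 =>
    (mC G b).2 ⟨empty_ssubset.1 h1, (mK G b).2 (((mK G a).1 ((mC G a).1 ha).2).subset h2.1)⟩) x hx,
    sub_neg_eq_add, UU]
  congr 2
  ext τ
  simp only [mem_filter, mC]
  exact ⟨fun h => ⟨h.1.2, h.2⟩, fun h => ⟨⟨((mC G x).1 hx).1.mono h.2, h.1⟩, h.2⟩⟩

theorem K1 : ∀ a ∈ KK G, ∀ b ⊆ a, b ∈ KK G := fun a ha b h => (mK G b).2 (((mK G a).1 ha).subset h)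

theorem split : KK G = insert ∅ (cl G univ) := by
  ext c
  simp only [mem_insert, mC, nonempty_iff_ne_empty]
  refine ⟨fun h => by tauto, ?_⟩
  rintro (rfl | h)
  exacts [(mK G _).2 (by simp), h.2]

/-- the alternating sum of the curvatures vanishes -/
theorem alt_sum : ∑ c ∈ cl G univ, (-1 : ℤ) ^ c.card * curv G c = 0 := by
  have i0 := inv (KK G) (K1 G) ∅ ((mK G _).2 (by simp))
  have u0 : UU G ∅ = ∑ τ ∈ (KK G).filter (∅ ⊆ ·), (-1 : ℤ) ^ τ.card := rfl
  have i1 : ∑ c ∈ (KK G).filter (∅ ⊆ ·), (-1 : ℤ) ^ c.card * UU G c = 1 := i0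
  simp only [empty_subset, filter_true] at i1 u0
  have e1 : ∑ c ∈ KK G, (-1 : ℤ) ^ c.card * UU G c =
      UU G ∅ + ∑ c ∈ cl G univ, (-1 : ℤ) ^ c.card * UU G c := by
    rw [split G, sum_insert (by simp [mC])]
    simp
  have e2 : ∑ τ ∈ KK G, (-1 : ℤ) ^ τ.card = 1 + ∑ τ ∈ cl G univ, (-1 : ℤ) ^ τ.card := by
    rw [split G, sum_insert (by simp [mC])]
    simp
  rw [e1] at i1
  rw [e2] at u0
  rw [sum_congr rfl (g := fun c => (-1 : ℤ) ^ c.card + (-1 : ℤ) ^ c.card * UU G c) (fun c hc => by
    rw [curv_eq G c hc]; ring), sum_add_distrib]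
  linarith

/-- `η(G)` is twice the sum of the curvatures of the complete subgraphs of even cardinality -/
theorem eta_eq : eta G = 2 * ∑ c ∈ (cl G univ).filter (fun c => Even c.card), curv G c := by
  have h := alt_sum G
  have e : ∀ c ∈ cl G univ, curv G c + (-1 : ℤ) ^ c.card * curv G c =
      2 * (if Even c.card then curv G c else 0) := by
    intro c _
    by_cases hc : Even c.card
    · rw [if_pos hc, hc.neg_one_pow]; ring
    · rw [if_neg hc, (Nat.not_even_iff_odd.1 hc).neg_one_pow]; ring
  have e2 : eta G + ∑ c ∈ cl G univ, (-1 : ℤ) ^ c.card * curv G c =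
      2 * ∑ c ∈ (cl G univ).filter (fun c => Even c.card), curv G c := by
    rw [eta, ← sum_add_distrib, sum_congr rfl e, ← mul_sum, sum_filter]
  rw [h, add_zero] at e2
  exact e2

variable {G}

theorem UU_of_two {d : ℕ} (h : IsolatedSingularities G d) (c : Finset V) (hc : c ∈ KK G)
    (h2 : 1 < c.card) : UU G c = (-1) ^ (d + 1) := by
  obtain ⟨Z, z1, z2⟩ := h
  rw [mK] at hc
  obtain ⟨x, hx, y, hy, hxy, hZ⟩ : ∃ x ∈ c, ∃ y ∈ c, x ≠ y ∧ x ∉ Z := by
    obtain ⟨x, hx, y, hy, hxy⟩ := one_lt_card.1 h2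
    by_cases h : x ∈ Z
    · exact ⟨y, hy, x, hx, hxy.symm, fun h' => z1 x h y h' (hc hx hy hxy)⟩
    · exact ⟨x, hx, y, hy, hxy, h⟩
  have h3 := z2 x hZ
  have h4 : y ∈ sph G univ x := mem_filter.2 ⟨mem_univ _, hc hx hy hxy⟩
  rcases d with _ | d
  · rw [show _ = ∅ from h3] at h4
    simp at h4
  obtain ⟨m, h5, h6⟩ := link d _ (h3 y h4) ((c.erase x).erase y) (fun z hz => by
    simp only [mem_erase] at hz
    exact mem_filter.2 ⟨mem_filter.2 ⟨mem_univ _, hc hx hz.2.2 hz.2.1.symm⟩,
      hc hy hz.2.2 hz.1.symm⟩)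
    (hc.subset ((erase_subset _ _).trans (erase_subset _ _)))
  have h7 := card_erase_add_one (mem_erase.2 ⟨hxy.symm, hy⟩)
  have h8 := card_erase_add_one hx
  rw [UU, KK, red_link G univ c (subset_univ _) hc, show d + 1 + 1 = c.card + m by omega, pow_add,
    ← sphere m _ h6]
  congr 2
  ext z
  simp only [sph, mem_filter, mem_univ, true_and, mem_erase]
  refine ⟨fun h => ⟨⟨h x hx, h y hy⟩, fun w hw => h w hw.2.2⟩, fun h w hw => ?_⟩
  by_cases e : w = x
  · exact e ▸ h.1.1
  by_cases e' : w = y
  · exact e' ▸ h.1.2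
  exact h.2 w ⟨e', e, hw⟩

theorem curv_odd {d : ℕ} (hd : Odd d) (h : IsolatedSingularities G d) (c : Finset V)
    (hc : c ∈ cl G univ) (h2 : 2 ≤ c.card) : curv G c = 2 := by
  rw [curv_eq G c hc, UU_of_two h c ((mC G c).1 hc).2 h2, (hd.add_odd odd_one).neg_one_pow]
  norm_num

theorem curv_even {d : ℕ} (hd : Even d) (h : IsolatedSingularities G d) (c : Finset V)
    (hc : c ∈ cl G univ) : curv G c = 0 := by
  have e2 := UU_of_two h
  rw [(hd.add_one).neg_one_pow] at e2
  rw [curv_eq G c hc]
  have sp : c.card = 1 ∨ 1 < c.card := by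
    have := ((mC G c).1 hc).1.card_pos
    omega
  rcases sp with h | h
  · have i0 := inv (KK G) (K1 G) c ((mC G c).1 hc).2
    have i1 : ∑ a ∈ (KK G).filter (c ⊆ ·), (-1 : ℤ) ^ a.card * UU G a = 1 := i0
    have m : c ∈ (KK G).filter (c ⊆ ·) := mem_filter.2 ⟨((mC G c).1 hc).2, subset_rfl⟩
    have u0 : UU G c = ∑ τ ∈ (KK G).filter (c ⊆ ·), (-1 : ℤ) ^ τ.card := rfl
    rw [← add_sum_erase _ _ m] at i1 u0
    rw [sum_congr rfl (g := fun a => -(-1 : ℤ) ^ a.card) (fun a ha => ?_), sum_neg_distrib] at i1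
    · rw [h] at i1 u0
      linarith
    · obtain ⟨h1, h2⟩ := mem_erase.1 ha
      rw [e2 a (mem_filter.1 h2).1
        (h ▸ card_lt_card ((mem_filter.1 h2).2.ssubset_of_ne h1.symm))]
      ring
  · rw [e2 c ((mC G c).1 hc).2 h]; ring

end

/-- exact values for graphs with isolated singularities -/
theorem exact_values :
    (∀ (V : Type) [Fintype V] (G : SimpleGraph V),
      eta G = 2 * ∑ c ∈ (cl G univ).filter (fun c => Even c.card), curv G c) ∧
    (∀ (V : Type) [Fintype V] (G : SimpleGraph V) (d : ℕ),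
      Variety G (d + 1) univ → IsolatedSingularities G d) ∧
    (∀ (V : Type) [Fintype V] (G : SimpleGraph V) (d : ℕ), IsolatedSingularities G d →
      (Even d → ∀ c ∈ cl G univ, curv G c = 0) ∧
      (Odd d → (∀ c ∈ cl G univ, 2 ≤ c.card → curv G c = 2) ∧
        eta G = 4 * ∑ k ∈ (range (Fintype.card V)).filter (fun k => Odd k), (v G k : ℤ)) ∧
      0 ≤ eta G ∧
      (eta G = 0 ↔ ∀ c ∈ cl G univ, curv G c = 0) ∧
      (eta G = 0 ↔ (Even d ∨ ∀ x y, ¬ G.Adj x y))) := by
  refine ⟨fun V _ G => eta_eq G, fun V _ G d ⟨Z, _, z1, z2, _⟩ =>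
    ⟨Z, z1, fun x hx => z2 x (mem_univ _) hx⟩, fun V _ G d hG => ?_⟩
  -- the value for odd `d`
  have hodd : Odd d → eta G = 4 * ∑ k ∈ (range (Fintype.card V)).filter (fun k => Odd k),
      (v G k : ℤ) := by
    intro hd
    have e1 : ∀ c ∈ (cl G univ).filter (fun c => Even c.card), curv G c = 2 := by
      intro c hc
      obtain ⟨h1, h2⟩ := mem_filter.1 hc
      refine curv_odd hd hG c h1 ?_
      have h3 := ((mC G c).1 h1).1.card_pos
      obtain ⟨r, hr⟩ := h2
      omega
    rw [eta_eq, sum_congr rfl e1, sum_const, nsmul_eq_mul]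
    have e2 : ((cl G univ).filter (fun c => Even c.card)).card =
        ∑ k ∈ (range (Fintype.card V)).filter (fun k => Odd k), v G k := by
      rw [card_eq_sum_card_fiberwise (f := fun c : Finset V => c.card - 1)
        (t := (range (Fintype.card V)).filter (fun k => Odd k))]
      · refine sum_congr rfl fun k hk => ?_
        rw [v]
        congr 1
        ext c
        simp only [mem_filter, mem_range] at hk ⊢
        constructor
        · rintro ⟨⟨h1, h2⟩, h3⟩
          have h4 := ((mC G c).1 h1).1.card_pos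
          exact ⟨h1, by omega⟩
        · rintro ⟨h1, h2⟩
          refine ⟨⟨h1, ?_⟩, by omega⟩
          rw [h2]
          exact hk.2.add_one
      · intro c hc
        simp only [coe_filter, Set.mem_setOf_eq, mem_range] at hc ⊢
        have h4 := ((mC G c).1 hc.1).1.card_pos
        have h5 : c.card ≤ Fintype.card V := card_le_univ c
        refine ⟨by omega, ?_⟩
        obtain ⟨r, hr⟩ := hc.2
        exact ⟨r - 1, by omega⟩
    rw [e2]
    push_cast
    ring
  have hnn : 0 ≤ eta G := by
    rcases Nat.even_or_odd d with hd | hd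
    · exact (sum_eq_zero fun c hc => curv_even hd hG c hc).ge
    · rw [hodd hd]
      positivity
  have hzero : eta G = 0 ↔ (Even d ∨ ∀ x y, ¬ G.Adj x y) := by
    constructor
    · intro h0
      rcases Nat.even_or_odd d with hd | hd
      · exact Or.inl hd
      · right
        intro x y hxy
        rw [hodd hd] at h0
        have h1 : ∑ k ∈ (range (Fintype.card V)).filter (fun k => Odd k), (v G k : ℤ) = 0 := by
          linarith
        rw [sum_eq_zero_iff_of_nonneg (fun _ _ => by positivity)] at h1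
        have hcard : 2 ≤ Fintype.card V := by
          have : ({x, y} : Finset V).card = 2 := card_pair hxy.ne
          rw [← this]
          exact card_le_univ _
        have h2 := h1 1 (by
          simp only [mem_filter, mem_range]
          exact ⟨by omega, odd_one⟩)
        have h3 : v G 1 = 0 := by exact_mod_cast h2
        rw [v, card_eq_zero] at h3
        have h4 : ({x, y} : Finset V) ∈ (cl G univ).filter (fun c => c.card = 1 + 1) := by
          rw [mem_filter, mC, mK]
          refine ⟨⟨⟨x, by simp⟩, ?_⟩, card_pair hxy.ne⟩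
          intro a ha b hb hab
          simp only [coe_insert, coe_singleton, Set.mem_insert_iff, Set.mem_singleton_iff] at ha hb
          rcases ha with rfl | rfl <;> rcases hb with rfl | rfl
          · exact absurd rfl hab
          · exact hxy
          · exact hxy.symm
          · exact absurd rfl hab
        rw [h3] at h4
        simp at h4
    · rintro (hd | he)
      · exact sum_eq_zero fun c hc => curv_even hd hG c hc
      · rw [eta_eq]
        have : (cl G univ).filter (fun c => Even c.card) = ∅ := by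
          rw [filter_eq_empty_iff]
          intro c hc hev
          obtain ⟨h1, h2⟩ := (mC G c).1 hc
          have h3 : 1 < c.card := by
            have := h1.card_pos
            obtain ⟨r, hr⟩ := hev
            omega
          obtain ⟨x, hx, y, hy, hxy⟩ := one_lt_card.1 h3
          exact he x y (((mK G c).1 h2) hx hy hxy)
        rw [this, sum_empty, mul_zero]
  refine ⟨fun hd c hc => curv_even hd hG c hc, fun hd => ⟨fun c hc h2 => curv_odd hd hG c hc h2,
    hodd hd⟩, hnn, ⟨fun h0 c hc => ?_, fun h => sum_eq_zero h⟩, hzero⟩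
  rcases hzero.1 h0 with hd | he
  · exact curv_even hd hG c hc
  · have h3 : c.card = 1 := by
      obtain ⟨h1, h2⟩ := (mC G c).1 hc
      by_contra hne
      have h4 := h1.card_pos
      obtain ⟨x, hx, y, hy, hxy⟩ := one_lt_card.1 (show 1 < c.card by omega)
      exact he x y (((mK G c).1 h2) hx hy hxy)
    have h5 : (KK G).filter (c ⊆ ·) = {c} := eq_singleton_iff_unique_mem.2
      ⟨mem_filter.2 ⟨((mC G c).1 hc).2, subset_rfl⟩, fun y hy => by
        obtain ⟨h6, h7⟩ := mem_filter.1 hy
        by_contra hne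
        have h8 : 1 < y.card := by
          have := card_lt_card (h7.ssubset_of_ne (fun e => hne e.symm))
          omega
        obtain ⟨a, ha, b, hb, hab⟩ := one_lt_card.1 h8
        exact he a b (((mK G y).1 h6) ha hb hab)⟩
    rw [curv_eq G c hc, UU, h5]
    simp [h3]



section general

variable {V : Type} [Fintype V] (G : SimpleGraph V)

theorem UU_lk (c : Finset V) (hc : c ∈ cl G univ) :
    UU G c = (-1) ^ c.card * red G (lk G c) := by
  have h1 := ((mC G c).1 hc).2
  rw [mK] at h1
  rw [UU, KK, red_link G univ c (subset_univ _) h1]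
  congr 2
  ext z
  simp [lk]

theorem curv_lk_even (c : Finset V) (hc : c ∈ cl G univ) (h : Even c.card) :
    curv G c = 2 - chi G (lk G c) := by
  rw [curv_eq G c hc, UU_lk G c hc, h.neg_one_pow, one_mul, chi_eq]
  ring

theorem curv_lk_odd (c : Finset V) (hc : c ∈ cl G univ) (h : ¬ Even c.card) :
    curv G c = chi G (lk G c) := by
  rw [curv_eq G c hc, UU_lk G c hc, (Nat.not_even_iff_odd.1 h).neg_one_pow, chi_eq]
  ring

/-- the local form of the alternating identity -/
theorem local_sum (c : Finset V) (hc : c ∈ cl G univ) :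
    ∑ a ∈ (KK G).filter (c ⊆ ·), (-1 : ℤ) ^ a.card * curv G a = curv G c := by
  have i1 : ∑ a ∈ (KK G).filter (c ⊆ ·), (-1 : ℤ) ^ a.card * UU G a = 1 :=
    inv (KK G) (K1 G) c ((mC G c).1 hc).2
  have h : ∀ a ∈ (KK G).filter (c ⊆ ·), (-1 : ℤ) ^ a.card * curv G a =
      (-1 : ℤ) ^ a.card + (-1 : ℤ) ^ a.card * UU G a := by
    intro a ha
    obtain ⟨h1, h2⟩ := mem_filter.1 ha
    rw [curv_eq G a ((mC G a).2 ⟨((mC G c).1 hc).1.mono h2, h1⟩)]
    ring
  rw [sum_congr rfl h, sum_add_distrib, i1, curv_eq G c hc, UU]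
  ring

/-- if the curvatures of the even complete subgraphs vanish, so do all curvatures -/
theorem vanish (h : ∀ c ∈ cl G univ, Even c.card → curv G c = 0) :
    ∀ c ∈ cl G univ, curv G c = 0 := by
  have main : ∀ n : ℕ, ∀ c ∈ cl G univ, Fintype.card V - c.card = n → curv G c = 0 := by
    intro n
    induction n using Nat.strong_induction_on with
    | _ n ih =>
      intro c hc hn
      by_cases he : Even c.card
      · exact h c hc he
      have m : c ∈ (KK G).filter (c ⊆ ·) := mem_filter.2 ⟨((mC G c).1 hc).2, subset_rfl⟩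
      have h1 := local_sum G c hc
      rw [← add_sum_erase _ _ m, (Nat.not_even_iff_odd.1 he).neg_one_pow,
        sum_eq_zero (s := ((KK G).filter (c ⊆ ·)).erase c)] at h1
      · linarith
      · intro a ha
        obtain ⟨h2, h3⟩ := mem_erase.1 ha
        obtain ⟨h4, h5⟩ := mem_filter.1 h3
        have h6 := card_lt_card (h5.ssubset_of_ne h2.symm)
        have h7 : a.card ≤ Fintype.card V := card_le_univ a
        rw [ih (Fintype.card V - a.card) (by omega) a
          ((mC G a).2 ⟨((mC G c).1 hc).1.mono h5, h4⟩) rfl, mul_zero]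
  exact fun c hc => main _ c hc rfl

theorem vanish_iff : (∀ c ∈ cl G univ, curv G c = 0) ↔
    ∀ c ∈ cl G univ, Even c.card → chi G (lk G c) = 2 := by
  constructor
  · intro h c hc he
    have := curv_lk_even G c hc he
    rw [h c hc] at this
    linarith
  · intro h
    refine vanish G fun c hc he => ?_
    rw [curv_lk_even G c hc he, h c hc he, sub_self]

theorem eta_lk : eta G = 2 * ∑ c ∈ (cl G univ).filter (fun c => Even c.card),
    (2 - chi G (lk G c)) := by
  rw [eta_eq]
  congr 1
  refine sum_congr rfl fun c hc => ?_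
  obtain ⟨h1, h2⟩ := mem_filter.1 hc
  exact curv_lk_even G c h1 h2

theorem of_le (h : ∀ c ∈ cl G univ, Even c.card → chi G (lk G c) ≤ 2) :
    0 ≤ eta G ∧ (eta G = 0 ↔ ∀ c ∈ cl G univ, curv G c = 0) := by
  have h0 : ∀ c ∈ (cl G univ).filter (fun c => Even c.card), 0 ≤ 2 - chi G (lk G c) := by
    intro c hc
    obtain ⟨h1, h2⟩ := mem_filter.1 hc
    have := h c h1 h2
    linarith
  refine ⟨?_, ?_⟩
  · rw [eta_lk]
    have := sum_nonneg h0
    linarith
  · rw [vanish_iff, eta_lk, mul_eq_zero, or_iff_right (by norm_num), sum_eq_zero_iff_of_nonneg h0]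
    constructor
    · intro h1 c hc he
      have := h1 c (mem_filter.2 ⟨hc, he⟩)
      linarith
    · intro h1 c hc
      obtain ⟨h2, h3⟩ := mem_filter.1 hc
      rw [h1 c h2 h3, sub_self]

theorem of_ge (h : ∀ c ∈ cl G univ, Even c.card → 2 ≤ chi G (lk G c)) :
    eta G ≤ 0 ∧ (eta G = 0 ↔ ∀ c ∈ cl G univ, curv G c = 0) := by
  have h0 : ∀ c ∈ (cl G univ).filter (fun c => Even c.card), 2 - chi G (lk G c) ≤ 0 := by
    intro c hc
    obtain ⟨h1, h2⟩ := mem_filter.1 hc
    have := h c h1 h2
    linarith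
  refine ⟨?_, ?_⟩
  · rw [eta_lk]
    have := sum_nonpos h0
    linarith
  · rw [vanish_iff, eta_lk, mul_eq_zero, or_iff_right (by norm_num), sum_eq_zero_iff_of_nonpos h0]
    constructor
    · intro h1 c hc he
      have := h1 c (mem_filter.2 ⟨hc, he⟩)
      linarith
    · intro h1 c hc
      obtain ⟨h2, h3⟩ := mem_filter.1 hc
      rw [h1 c h2 h3, sub_self]

variable {G}

/-- if the links of all edges are spheres (of arbitrary dimensions), the links of all complete
subgraphs with at least two vertices have Euler characteristic `0` or `2` -/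
theorem chi_of_spheres (h : ∀ x y, G.Adj x y → ∃ n, Sphere G n (sph G (sph G univ x) y))
    (c : Finset V) (hc : c ∈ cl G univ) (h2 : 1 < c.card) :
    chi G (lk G c) = 0 ∨ chi G (lk G c) = 2 := by
  have hK := ((mC G c).1 hc).2
  rw [mK] at hK
  obtain ⟨x, hx, y, hy, hxy⟩ := one_lt_card.1 h2
  obtain ⟨n, hn⟩ := h x y (hK hx hy hxy)
  obtain ⟨m, h5, h6⟩ := link n _ hn ((c.erase x).erase y) (fun z hz => by
    simp only [mem_erase] at hz
    exact mem_filter.2 ⟨mem_filter.2 ⟨mem_univ _, hK hx hz.2.2 hz.2.1.symm⟩,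
      hK hy hz.2.2 hz.1.symm⟩)
    (hK.subset ((erase_subset _ _).trans (erase_subset _ _)))
  have e : red G (lk G c) = (-1) ^ m := by
    rw [← sphere m _ h6]
    congr 1
    ext z
    simp only [lk, sph, mem_filter, mem_univ, true_and, mem_erase]
    refine ⟨fun h => ⟨⟨h x hx, h y hy⟩, fun w hw => h w hw.2.2⟩, fun h w hw => ?_⟩
    by_cases e : w = x
    · exact e ▸ h.1.1
    by_cases e' : w = y
    · exact e' ▸ h.1.2
    exact h.2 w ⟨e', e, hw⟩
  rw [chi_eq, e]
  rcases Nat.even_or_odd m with hm | hm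
  · left; rw [hm.neg_one_pow]; norm_num
  · right; rw [hm.neg_one_pow]; norm_num

theorem edge_links {d : ℕ} (h : Variety G (d + 1) univ) :
    ∀ x y, G.Adj x y → ∃ n, n + 1 = d ∧ Sphere G n (sph G (sph G univ x) y) := by
  obtain ⟨Z, _, z1, z2, _⟩ := h
  intro x y hxy
  by_cases hx : x ∈ Z
  · have hy : y ∉ Z := fun hy => z1 x hx y hy hxy
    have h1 := z2 y (mem_univ _) hy
    have hm : x ∈ sph G univ y := mem_filter.2 ⟨mem_univ _, hxy.symm⟩
    rcases d with _ | d
    · rw [show _ = ∅ from h1] at hm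
      simp at hm
    · refine ⟨d, rfl, ?_⟩
      have h2 := h1 x hm
      have e : sph G (sph G univ y) x = sph G (sph G univ x) y := by
        ext z
        simp only [sph, mem_filter, mem_univ, true_and]
        tauto
      rwa [e] at h2
  · have h1 := z2 x (mem_univ _) hx
    have hm : y ∈ sph G univ x := mem_filter.2 ⟨mem_univ _, hxy⟩
    rcases d with _ | d
    · rw [show _ = ∅ from h1] at hm
      simp at hm
    · exact ⟨d, rfl, h1 y hm⟩

theorem variety_iff {d : ℕ} : Variety G (d + 2) univ ↔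
    ∀ x y, G.Adj x y → Sphere G d (sph G (sph G univ x) y) := by
  constructor
  · intro h x y hxy
    obtain ⟨n, h1, h2⟩ := edge_links h x y hxy
    obtain rfl : n = d := by omega
    exact h2
  · intro h
    refine ⟨∅, empty_subset _, by simp, fun x _ _ y hy => h x y (mem_filter.1 hy).2, by simp⟩

end general

section example7

/-- the suspension of a 4-cycle with a pendant vertex: `0`, `1` are the suspension vertices,
`2, 3, 4, 5` is the cycle and `6` the pendant vertex, adjacent to `2` -/
def adjB (x y : Fin 7) : Bool :=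
  (x.val ≤ 1 && 2 ≤ y.val) || (y.val ≤ 1 && 2 ≤ x.val) ||
  ((x.val, y.val) ∈ [(2, 3), (3, 2), (3, 4), (4, 3), (4, 5), (5, 4), (5, 2), (2, 5), (2, 6), (6, 2)])

def cliqueB (c : Finset (Fin 7)) : Bool := decide (∀ x ∈ c, ∀ y ∈ c, x ≠ y → adjB x y = true)

def clC (s : Finset (Fin 7)) : Finset (Finset (Fin 7)) :=
  s.powerset.filter (fun c => c.Nonempty ∧ cliqueB c = true)

def chiC (s : Finset (Fin 7)) : ℤ := ∑ c ∈ clC s, (-1) ^ (c.card + 1)

def lkC (c : Finset (Fin 7)) : Finset (Fin 7) := univ.filter (fun y => ∀ x ∈ c, adjB x y = true)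

theorem a1 : (∑ c ∈ (clC univ).filter (fun c => Even c.card), (2 - chiC (lkC c))) = 0 := by
  decide +kernel

theorem a2 : ∀ c ∈ clC univ, Even c.card → chiC (lkC c) ≤ 3 := by
  decide +kernel

theorem a3 : ({0, 2} : Finset (Fin 7)) ∈ clC univ ∧ chiC (lkC {0, 2}) = 3 := by decide +kernel

/-- the suspension of a 4-cycle with a pendant vertex -/
def exG : SimpleGraph (Fin 7) where
  Adj x y := adjB x y = true
  symm := ⟨by decide⟩
  loopless := ⟨by decide⟩

theorem cl_exG (s : Finset (Fin 7)) : cl exG s = clC s := by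
  ext c
  simp only [cl, clC, mem_filter, mem_powerset, cliqueB, decide_eq_true_eq]
  exact Iff.rfl

theorem chi_exG (s : Finset (Fin 7)) : chi exG s = chiC s := by
  rw [chi, chiC, cl_exG]

theorem lk_exG (c : Finset (Fin 7)) : lk exG c = lkC c := by
  ext y
  simp only [lk, lkC, mem_filter, mem_univ, true_and]
  exact Iff.rfl

theorem sharp : ∃ G : SimpleGraph (Fin 7), (∀ c ∈ cl G univ, Even c.card → chi G (lk G c) ≤ 3) ∧
    eta G = 0 ∧ ∃ c ∈ cl G univ, curv G c ≠ 0 := by
  refine ⟨exG, ?_, ?_, {0, 2}, ?_, ?_⟩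
  · intro c hc he
    rw [cl_exG] at hc
    rw [chi_exG, lk_exG]
    exact a2 c hc he
  · rw [eta_lk, mul_eq_zero]
    right
    rw [cl_exG, ← a1]
    refine sum_congr (by ext c; simp only [mem_filter]) fun c _ => ?_
    rw [chi_exG, lk_exG]
  · rw [cl_exG]
    exact a3.1
  · rw [curv_lk_even exG _ (by rw [cl_exG]; exact a3.1) (by decide), chi_exG, lk_exG, a3.2]
    norm_num

end example7

/-- **Theorem.**  Let `G` be a finite graph; `lk c` is the graph of the common neighbours of the
vertices of a complete subgraph `c`.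
(1) `η(G) = 2 ∑ (2 - χ(lk c))`, the sum over the complete subgraphs `c` with an even (positive)
number of vertices.
(2) All curvatures `χ(S(c))` are zero if and only if `χ(lk c) = 2` for these `c`.
(3) If `χ(lk c) ≤ 2` for all these `c`, then `η(G) ≥ 0`; if `χ(lk c) ≥ 2` for all these `c`, then
`η(G) ≤ 0`.  In both cases `η(G) = 0` if and only if all curvatures are zero.
(4) The first condition of (3) holds if the link of every edge is a sphere, of a dimension which
may depend on the edge.
(5) `d`-varieties, `d ≥ 1`, are the graphs in which the links of all edges are `(d-2)`-spheres.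
(6) For `d`-varieties with `d` even all curvatures are zero; if `d` is odd, all complete subgraphs
with at least two vertices have curvature `2`, and `η(G) = 4 (v₁ + v₃ + v₅ + …)`; and `η(G) = 0` if
and only if `d` is even or `G` has no edges.
(7) The condition `χ(lk c) ≤ 2` of (3) cannot be replaced by `χ(lk c) ≤ 3`. -/
theorem result :
    (∀ (V : Type) [Fintype V] (G : SimpleGraph V),
      eta G = 2 * ∑ c ∈ (cl G univ).filter (fun c => Even c.card), (2 - chi G (lk G c)) ∧
      ((∀ c ∈ cl G univ, curv G c = 0) ↔ ∀ c ∈ cl G univ, Even c.card → chi G (lk G c) = 2) ∧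
      ((∀ c ∈ cl G univ, Even c.card → chi G (lk G c) ≤ 2) →
        0 ≤ eta G ∧ (eta G = 0 ↔ ∀ c ∈ cl G univ, curv G c = 0)) ∧
      ((∀ c ∈ cl G univ, Even c.card → 2 ≤ chi G (lk G c)) →
        eta G ≤ 0 ∧ (eta G = 0 ↔ ∀ c ∈ cl G univ, curv G c = 0)) ∧
      ((∀ x y, G.Adj x y → ∃ n, Sphere G n (sph G (sph G univ x) y)) →
        ∀ c ∈ cl G univ, Even c.card → chi G (lk G c) ≤ 2)) ∧
    (∀ (V : Type) [Fintype V] (G : SimpleGraph V) (d : ℕ), Variety G (d + 2) univ ↔
      ∀ x y, G.Adj x y → Sphere G d (sph G (sph G univ x) y)) ∧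
    (∀ (V : Type) [Fintype V] (G : SimpleGraph V) (d : ℕ), Variety G (d + 1) univ →
      (∀ c ∈ cl G univ, Even c.card → chi G (lk G c) ≤ 2) ∧
      0 ≤ eta G ∧ (eta G = 0 ↔ ∀ c ∈ cl G univ, curv G c = 0) ∧
      (Even d → ∀ c ∈ cl G univ, curv G c = 0) ∧
      (Odd d → (∀ c ∈ cl G univ, 2 ≤ c.card → curv G c = 2) ∧
        eta G = 4 * ∑ k ∈ (range (Fintype.card V)).filter (fun k => Odd k), (v G k : ℤ)) ∧
      (eta G = 0 ↔ (Even d ∨ ∀ x y, ¬ G.Adj x y))) ∧
    (∃ G : SimpleGraph (Fin 7), (∀ c ∈ cl G univ, Even c.card → chi G (lk G c) ≤ 3) ∧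
      eta G = 0 ∧ ∃ c ∈ cl G univ, curv G c ≠ 0) := by
  have key : ∀ (V : Type) [Fintype V] (G : SimpleGraph V),
      (∀ x y, G.Adj x y → ∃ n, Sphere G n (sph G (sph G univ x) y)) →
        ∀ c ∈ cl G univ, Even c.card → chi G (lk G c) ≤ 2 := by
    intro V _ G h c hc he
    have h3 : 1 < c.card := by
      have := ((mC G c).1 hc).1.card_pos
      obtain ⟨r, hr⟩ := he
      omega
    rcases chi_of_spheres h c hc h3 with h4 | h4 <;> omega
  refine ⟨fun V _ G => ⟨eta_lk G, vanish_iff G, of_le G, of_ge G, key V G⟩,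
    fun V _ G d => variety_iff, fun V _ G d hV => ?_, sharp⟩
  have hk := key V G (fun x y hxy => by
    obtain ⟨n, _, hn⟩ := edge_links hV x y hxy
    exact ⟨n, hn⟩)
  obtain ⟨p1, p2⟩ := of_le G hk
  obtain ⟨q1, q2, _, _, q5⟩ := exact_values.2.2 V G d (exact_values.2.1 V G d hV)
  exact ⟨hk, p1, p2, q1, q2, q5⟩

end Pool.Agent.Results.MP_dbf4ef_co.EvenCliques
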